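import Pool.Agent.H39.Gen1

namespace Pool.Agent.Results.MP_6d0d7d_lc.Canon

open Set Filter Topology

universe u

set_option warn.classDefReducibility false

/-- pointwise convergence on `A → B` with `B` discrete -/
def ptw (A B : Type) : TopologicalSpace (A → B) :=
  @Pi.topologicalSpace A (fun _ => B) (fun _ => ⊥)

/-- pointwise convergence on `Sym(X)` -/
def symTop (X : Type) : TopologicalSpace (Equiv.Perm X) :=
  TopologicalSpace.induced (fun g : Equiv.Perm X => (g : X → X)) (ptw X X)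

/-- the subspace topology on a permutation group -/
def grpTop {X : Type} (G : Subgroup (Equiv.Perm X)) : TopologicalSpace G :=
  TopologicalSpace.induced Subtype.val (symTop X)

/-- every continuous action on a nonempty compact Hausdorff space has a fixed point -/
def ExtAmen {X : Type} (G : Subgroup (Equiv.Perm X)) : Prop :=
  ∀ (K : Type u) [tK : TopologicalSpace K] [CompactSpace K] [T2Space K] [Nonempty K]
    [MulAction G K],
    @Continuous (G × K) K (@instTopologicalSpaceProd G K (grpTop G) tK) tK (fun p => p.1 • p.2) →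
      ∃ k : K, ∀ g : G, g • k = k

/-- finitely many orbits on `n`-tuples for every `n ≥ 1` -/
def Oligo {Y : Type} (H : Subgroup (Equiv.Perm Y)) : Prop :=
  ∀ n : ℕ, 1 ≤ n → Finite (MulAction.orbitRel.Quotient H (Fin n → Y))

/-- `f` is canonical with respect to `G` and `H` -/
def Canonical {X Y : Type} (G : Subgroup (Equiv.Perm X)) (H : Subgroup (Equiv.Perm Y))
    (f : X → Y) : Prop :=
  ∀ n : ℕ, 1 ≤ n → ∀ a : Fin n → X, ∀ α ∈ G, ∃ β ∈ H, ∀ i, f (α (a i)) = β (f (a i))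

/-- the set `H f G` -/
def dbl {X Y : Type} (G : Subgroup (Equiv.Perm X)) (H : Subgroup (Equiv.Perm Y)) (f : X → Y) :
    Set (X → Y) :=
  {g | ∃ β ∈ H, ∃ α ∈ G, g = β ∘ f ∘ α}

/-- canonisation for all oligomorphic groups on `Y` -/
def CanonOn {X : Type} (G : Subgroup (Equiv.Perm X)) (Y : Type) : Prop :=
  ∀ H : Subgroup (Equiv.Perm Y), Oligo H → ∀ f : X → Y,
    ∃ g ∈ @closure (X → Y) (ptw X Y) (dbl G H f), Canonical G H g

theorem mem_closure_ptw {A B : Type} {S : Set (A → B)} {g : A → B} :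
    g ∈ @closure (A → B) (ptw A B) S ↔ ∀ E : Finset A, ∃ s ∈ S, ∀ x ∈ E, s x = g x := by
  let : TopologicalSpace B := ⊥
  have : DiscreteTopology B := ⟨rfl⟩
  change g ∈ closure S ↔ _
  rw [mem_closure_iff_nhds]
  constructor
  · intro h E
    have : {s : A → B | ∀ x ∈ E, s x = g x} ∈ 𝓝 g := by
      have := (Filter.biInter_finset_mem E).2 fun x _ =>
        (continuous_apply x).continuousAt.preimage_mem_nhds
          ((isOpen_discrete {g x}).mem_nhds rfl)
      exact mem_of_superset this fun s hs x hx => mem_iInter₂.1 hs x hx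
    obtain ⟨s, h1, h2⟩ := h _ this
    exact ⟨s, h2, h1⟩
  · intro h t ht
    rw [nhds_pi, Filter.mem_pi'] at ht
    obtain ⟨E, v, hv, hsub⟩ := ht
    obtain ⟨s, hs, hs'⟩ := h E
    refine ⟨s, hsub fun x hx => ?_, hs⟩
    rw [hs' x hx]
    exact mem_of_mem_nhds (hv x)

theorem mem_nhds_grp {X : Type} {G : Subgroup (Equiv.Perm X)} {g : G} {t : Set G} :
    t ∈ @nhds G (grpTop G) g ↔ ∃ E : Finset X, ∀ h : G, (∀ x ∈ E, h.1 x = g.1 x) → h ∈ t := by
  let : TopologicalSpace X := ⊥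
  have : DiscreteTopology X := ⟨rfl⟩
  unfold grpTop symTop
  rw [induced_compose, @nhds_induced _ _ (ptw X X), mem_comap]
  change (∃ v ∈ 𝓝 (g.1 : X → X), _) ↔ _
  constructor
  · rintro ⟨v, hv, hsub⟩
    rw [nhds_pi, Filter.mem_pi'] at hv
    obtain ⟨E, w, hw, hsub'⟩ := hv
    refine ⟨E, fun h hh => hsub (hsub' fun x hx => ?_)⟩
    change h.1 x ∈ w x
    rw [hh x hx]
    exact mem_of_mem_nhds (hw x)
  · rintro ⟨E, hE⟩
    refine ⟨{s : X → X | ∀ x ∈ E, s x = g.1 x}, ?_, fun h hh => hE h hh⟩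
    have := (Filter.biInter_finset_mem E).2 fun x _ =>
      (continuous_apply x).continuousAt.preimage_mem_nhds
        ((isOpen_discrete {g.1 x}).mem_nhds (x := (g.1 : X → X) x) rfl)
    exact mem_of_superset this fun s hs x hx => mem_iInter₂.1 hs x hx

theorem Canonical.fin {X Y : Type} {G : Subgroup (Equiv.Perm X)} {H : Subgroup (Equiv.Perm Y)}
    {f : X → Y} (h : Canonical G H f) {ι : Type} [Fintype ι] [Nonempty ι] (a : ι → X)
    {α : Equiv.Perm X} (hα : α ∈ G) : ∃ β ∈ H, ∀ i, f (α (a i)) = β (f (a i)) := by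
  obtain ⟨β, hβ, h'⟩ := h _ Fintype.card_pos (fun j => a ((Fintype.equivFin ι).symm j)) α hα
  exact ⟨β, hβ, fun i => by simpa using h' (Fintype.equivFin ι i)⟩

theorem converse {X : Type} [Countable X] (G : Subgroup (Equiv.Perm X)) (hG : CanonOn G ℕ) :
    ExtAmen.{u} G := by
  classical
  intro K tK _ _ _ _ hc
  let := grpTop G
  by_contra hno
  push Not at hno
  choose γ hγ using hno
  have hloc : ∀ k : K, ∃ (V U : Set K) (E : Finset X), V ∈ 𝓝 k ∧ (∀ z ∈ U, γ k • z ∉ U) ∧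
      ∀ w : G, (∀ x ∈ E, w.1 x = x) → ∀ z ∈ V, w • z ∈ U := by
    intro k
    obtain ⟨A, B, hA, hB, hkA, hkB, hAB⟩ := t2_separation (hγ k)
    have hcont : Continuous fun z : K => γ k • z := hc.comp (Continuous.prodMk_right (γ k))
    have hU : B ∩ (fun z => γ k • z) ⁻¹' A ∈ 𝓝 k :=
      inter_mem (hB.mem_nhds hkB) ((hA.preimage hcont).mem_nhds hkA)
    have h1 : (fun p : G × K => p.1 • p.2) ⁻¹' (B ∩ (fun z => γ k • z) ⁻¹' A) ∈ 𝓝 ((1 : G), k) :=
      hc.continuousAt.preimage_mem_nhds (by simpa using hU)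
    obtain ⟨W, hW, V, hV, hWV⟩ := mem_nhds_prod_iff.1 h1
    obtain ⟨E, hE⟩ := mem_nhds_grp.1 hW
    exact ⟨V, _, E, hV, fun z hz hz' => disjoint_left.1 hAB hz.2 hz'.1,
      fun w hw z hz => hWV (mk_mem_prod (hE w hw) hz)⟩
  choose V U E hV hU hE using hloc
  obtain ⟨T, hT⟩ := CompactSpace.elim_nhds_subcover V hV
  obtain ⟨k0⟩ := ‹Nonempty K›
  by_cases hX : IsEmpty X
  · exact hγ k0 (by rw [Subsingleton.elim (γ k0) 1, one_smul])
  obtain ⟨x0⟩ := not_isEmpty_iff.1 hX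
  let F : Finset X := insert x0 (T.biUnion E)
  have : Nonempty F := ⟨⟨x0, Finset.mem_insert_self _ _⟩⟩
  let Q : Fin T.card → (F → X) → Prop := fun j b =>
    ∃ g : G, (∀ x : F, g.1 x = b x) ∧ g⁻¹ • k0 ∈ V (T.equivFin.symm j)
  obtain ⟨f, hf⟩ := Pool.Agent.H39.Gen1.universal Q
  obtain ⟨g, hg, hcan⟩ := hG (Pool.Agent.H39.Gen1.Aut (Fin T.card) F)
    (fun n _ => Pool.Agent.H39.Gen1.oligo n) f
  obtain ⟨_, ⟨β, hβ, α, hα, rfl⟩, hs⟩ := mem_closure_ptw.1 hg
    (F ∪ T.biUnion fun j => F.image ((γ j)⁻¹).1)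
  have : (⟨α, hα⟩ : G)⁻¹ • k0 ∈ ⋃ x ∈ T, V x := hT ▸ mem_univ _
  obtain ⟨j, hj, hjV⟩ := mem_iUnion₂.1 this
  obtain ⟨δ, hδ, hδ'⟩ := hcan.fin (fun x : F => x.1) ((γ j)⁻¹).2
  have h1 : Q (T.equivFin ⟨j, hj⟩) (fun x => α x) := ⟨⟨α, hα⟩, fun _ => rfl, by simpa using hjV⟩
  have h2 : Q (T.equivFin ⟨j, hj⟩) (fun x => α (((γ j)⁻¹).1 x)) := by
    rw [hf, hβ] at h1 ⊢
    have e1 : (fun x : F => β (f (α x))) = fun x : F => g x :=
      funext fun x => hs x (Finset.mem_union_left _ x.2)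
    have e2 : (fun x : F => β (f (α (((γ j)⁻¹).1 x)))) = fun x : F => δ (g x) :=
      funext fun x => (hs _ (Finset.mem_union_right _
        (Finset.mem_biUnion.2 ⟨j, hj, Finset.mem_image_of_mem _ x.2⟩))).trans (hδ' x)
    rw [e1] at h1
    rw [e2]
    exact (hδ _ _).1 h1
  obtain ⟨h, hh, hhV⟩ := h2
  rw [Equiv.symm_apply_apply] at hhV
  have hEF : ∀ x ∈ E j, x ∈ F := fun x hx =>
    Finset.mem_insert_of_mem (Finset.mem_biUnion.2 ⟨j, hj, hx⟩)
  have h3 := hE j (γ j * (⟨α, hα⟩ : G)⁻¹ * h) (fun x hx => by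
    have := hh ⟨x, hEF x hx⟩
    simp only [Subgroup.coe_mul, Equiv.Perm.coe_mul, Function.comp_apply]
    rw [this]
    simp) _ hhV
  rw [smul_smul, mul_inv_cancel_right, mul_smul] at h3
  refine hU j _ ?_ h3
  simpa using hE j 1 (fun _ _ => rfl) _ hjV

theorem ExtAmen.down {X : Type} {G : Subgroup (Equiv.Perm X)} (h : ExtAmen.{u} G) :
    ExtAmen.{0} G := by
  intro K tK _ _ _ _ hc
  let := grpTop G
  obtain ⟨k, hk⟩ := h (ULift.{u} K) (continuous_uliftUp.comp
    (hc.comp (continuous_fst.prodMk (continuous_uliftDown.comp continuous_snd))))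
  exact ⟨k.down, fun g => congrArg ULift.down (hk g)⟩

theorem fixed {X Y : Type} {G : Subgroup (Equiv.Perm X)} (hG : ExtAmen.{0} G)
    {H : Subgroup (Equiv.Perm Y)} (hH : Oligo H) (f : X → Y) :
    ∃ φ : ∀ j : (Σ n : ℕ, Fin (n + 1) → X), MulAction.orbitRel.Quotient H (Fin (j.1 + 1) → Y),
      (∀ s : Finset (Σ n : ℕ, Fin (n + 1) → X), ∃ α ∈ G, ∀ j ∈ s,
        φ j = Quotient.mk'' (fun i => f (α (j.2 i)))) ∧
      ∀ α ∈ G, ∀ n a, φ ⟨n, fun i => α (a i)⟩ = φ ⟨n, a⟩ := by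
  classical
  let J := Σ n : ℕ, Fin (n + 1) → X
  let O : J → Type := fun j => MulAction.orbitRel.Quotient H (Fin (j.1 + 1) → Y)
  let tO : ∀ j, TopologicalSpace (O j) := fun _ => ⊥
  have dO : ∀ j, DiscreteTopology (O j) := fun _ => ⟨rfl⟩
  have fO : ∀ j, Finite (O j) := fun j => hH _ (Nat.succ_pos _)
  let S : Set (∀ j, O j) := {φ | ∀ s : Finset J, ∃ α ∈ G, ∀ j ∈ s,
    φ j = Quotient.mk'' (fun i => f (α (j.2 i)))}
  have hS : IsClosed S := by
    have : S = ⋂ s : Finset J, (fun (φ : ∀ j, O j) (j : s) => φ j) ⁻¹'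
        {ψ | ∃ α ∈ G, ∀ j : s, ψ j = Quotient.mk'' (fun i => f (α (j.1.2 i)))} := by
      ext φ
      simp only [S, mem_iInter, mem_preimage, mem_ofPred_eq, Subtype.forall]
    rw [this]
    exact isClosed_iInter fun s => (isClosed_discrete _).preimage
      (continuous_pi fun j => continuous_apply _)
  have : CompactSpace S := isCompact_iff_compactSpace.1 hS.isCompact
  have : Nonempty S := ⟨⟨fun j => Quotient.mk'' (fun i => f (j.2 i)),
    fun s => ⟨1, G.one_mem, fun _ _ => rfl⟩⟩⟩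
  let sh : G → J → J := fun α j => ⟨j.1, fun i => α⁻¹.1 (j.2 i)⟩
  let act : MulAction G S :=
    { smul := fun α φ => ⟨fun j => φ.1 (sh α j), fun s => by
        obtain ⟨β, hβ, h⟩ := φ.2 (s.image (sh α))
        exact ⟨β * α⁻¹.1, G.mul_mem hβ α⁻¹.2, fun j hj => h _ (Finset.mem_image_of_mem _ hj)⟩⟩
      one_smul := fun φ => rfl
      mul_smul := fun α β φ => rfl }
  let := grpTop G
  obtain ⟨φ, hφ⟩ := hG S (by
    refine Continuous.subtype_mk (continuous_pi fun j => continuous_iff_continuousAt.2 fun p => ?_) _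
    refine tendsto_nhds_of_eventually_eq ?_
    have h1 : {α : G | sh α j = sh p.1 j} ∈ 𝓝 p.1 := by
      refine mem_nhds_grp.2 ⟨Finset.univ.image (sh p.1 j).2, fun h hh => ?_⟩
      refine congrArg (fun a => (⟨j.1, a⟩ : J)) (funext fun i => ?_)
      have := hh _ (Finset.mem_image_of_mem _ (Finset.mem_univ i))
      simp only [sh, InvMemClass.coe_inv, Equiv.Perm.coe_inv, Equiv.apply_symm_apply] at this ⊢
      rw [Equiv.symm_apply_eq, this]
    have h2 : {ψ : S | ψ.1 (sh p.1 j) = p.2.1 (sh p.1 j)} ∈ 𝓝 p.2 :=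
      ((continuous_apply (sh p.1 j)).comp continuous_subtype_val).continuousAt.preimage_mem_nhds
        ((isOpen_discrete {p.2.1 (sh p.1 j)}).mem_nhds rfl)
    filter_upwards [prod_mem_nhds h1 h2] with q hq
    have e1 : (sh q.1 j).2 = (sh p.1 j).2 := eq_of_heq (Sigma.mk.inj hq.1).2
    have e2 := hq.2
    change q.2.1 ⟨j.1, (sh q.1 j).2⟩ = p.2.1 (sh p.1 j)
    rw [e1]
    exact e2)
  exact ⟨φ.1, φ.2, fun α hα n a =>
    congrFun (congrArg Subtype.val (hφ (⟨α, hα⟩ : G)⁻¹)) ⟨n, a⟩⟩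

theorem forward {X : Type} [Countable X] {G : Subgroup (Equiv.Perm X)} (hG : ExtAmen.{0} G)
    (Y : Type) : CanonOn G Y := by
  classical
  intro H hH f
  by_cases hX : IsEmpty X
  · exact ⟨f, mem_closure_ptw.2 fun E => ⟨f, ⟨1, H.one_mem, 1, G.one_mem, rfl⟩, fun _ _ => rfl⟩,
      fun n _ a α _ => ⟨1, H.one_mem, fun i => hX.elim (a i)⟩⟩
  rw [not_isEmpty_iff] at hX
  obtain ⟨e, he⟩ := exists_surjective_nat X
  choose idx hidx using he
  obtain ⟨φ, hφ, hfix⟩ := fixed hG hH f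
  let A : ℕ → (Σ n : ℕ, Fin (n + 1) → X) := fun m => ⟨m, fun i => e i⟩
  choose α hα hα' using fun n => hφ ((Finset.range (n + 1)).image A)
  have hA : ∀ n m, m ≤ n → φ (A m) = Quotient.mk'' (fun i : Fin (m + 1) => f (α n (e i))) :=
    fun n m h => hα' n _ (Finset.mem_image_of_mem _ (Finset.mem_range.2 (Nat.lt_succ_of_le h)))
  have hq : ∀ {k : ℕ} {u v : Fin k → Y},
      (Quotient.mk'' u : MulAction.orbitRel.Quotient H (Fin k → Y)) = Quotient.mk'' v ↔
        ∃ β ∈ H, ∀ i, u i = β (v i) := by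
    intro k u v
    rw [Quotient.eq'', MulAction.orbitRel_apply]
    constructor
    · rintro ⟨β, hβ⟩
      exact ⟨β.1, β.2, fun i => (congrFun hβ i).symm⟩
    · rintro ⟨β, hβ, h⟩
      exact ⟨⟨β, hβ⟩, funext fun i => (h i).symm⟩
  choose η hη hη' using fun n => hq.1 ((hA n n le_rfl).symm.trans (hA (n + 1) n (Nat.le_succ n)))
  let β : ℕ → Equiv.Perm Y := fun n => Nat.rec 1 (fun k b => b * η k) n
  have hβ : ∀ n, β n ∈ H := fun n => by
    induction n with
    | zero => exact H.one_mem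
    | succ k ih => exact H.mul_mem ih (hη k)
  let g : X → Y := fun x => β (idx x) (f (α (idx x) x))
  have hg : ∀ x m, idx x ≤ m → β m (f (α m x)) = g x := by
    intro x m hm
    induction m, hm using Nat.le_induction with
    | base => rfl
    | succ k hk ih =>
      have := hη' k ⟨idx x, Nat.lt_succ_of_le hk⟩
      simp only [hidx] at this
      rw [← ih, this]
      rfl
  have hgφ : ∀ n (a : Fin (n + 1) → X), φ ⟨n, a⟩ = Quotient.mk'' (fun i => g (a i)) := by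
    intro n a
    let m := Finset.univ.sup fun i => idx (a i)
    have hm : ∀ i, idx (a i) ≤ m := fun i =>
      Finset.le_sup (f := fun i => idx (a i)) (Finset.mem_univ i)
    obtain ⟨δ, -, hδ⟩ := hφ {⟨n, a⟩, A m}
    obtain ⟨ζ, hζ, hζ'⟩ := hq.1 ((hA m m le_rfl).symm.trans (hδ (A m) (by simp)))
    rw [hδ ⟨n, a⟩ (by simp)]
    symm
    refine hq.2 ⟨β m * ζ, H.mul_mem (hβ m) hζ, fun i => ?_⟩
    have := hζ' ⟨idx (a i), Nat.lt_succ_of_le (hm i)⟩
    simp only [A, hidx] at this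
    rw [← hg _ m (hm i), this]
    rfl
  refine ⟨g, mem_closure_ptw.2 fun E => ⟨_, ⟨β (E.sup idx), hβ _, α (E.sup idx), hα _, rfl⟩,
    fun x hx => hg x _ (Finset.le_sup hx)⟩, fun n hn a δ hδ => ?_⟩
  obtain ⟨k, rfl⟩ := Nat.exists_eq_add_of_le' hn
  exact hq.1 ((hgφ k _).symm.trans ((hfix δ hδ k a).trans (hgφ k a)))

theorem result (X : Type) [Countable X] (G : Subgroup (Equiv.Perm X))
    (_hG : @IsClosed (Equiv.Perm X) (symTop X) (G : Set (Equiv.Perm X))) :
    (ExtAmen.{u} G ↔ ∀ Y : Type, CanonOn G Y) ∧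
      (ExtAmen.{u} G ↔ ∀ Y : Type, Countable Y → CanonOn G Y) :=
  ⟨⟨fun h Y => forward h.down Y, fun h => converse G (h ℕ)⟩,
    ⟨fun h Y _ => forward h.down Y, fun h => converse G (h ℕ inferInstance)⟩⟩

end Pool.Agent.Results.MP_6d0d7d_lc.Canon
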